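import Pool.Agent.H718.QS.Clus

/-!
# Generic points and clusters: dimensions of all systems up to a linear error, in every characteristic

Let `k` be any field, `r_1, …, r_s ≥ 1` with the sum `n > 9`, and let `q_i` be a polynomial of degree
less than `r_i`. The `i`-th cluster consists of the first `r_i` points of the germ `y = q_i(x)` at
`x = c_i`; its ideal of polynomials of multiplicity `m` is `(y - q_i(x), (x - c_i) ^ r_i) ^ m`. For
`r_i = 1` it is the point `(c_i, q_i)`. All the parameters `c_i` and coefficients of the `q_i` are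
algebraically independent over the prime field. Let `V(d; m)` be the space of the forms of degree `d`
with multiplicities at least `m_i` along the clusters, `E(d; m) = (d + 1) (d + 2) / 2 - ∑ r_i m_i
(m_i + 1) / 2` its expected dimension.

* For `d ≤ M √n` there is no nonzero form of degree `d` with the multiplicities `M, …, M`, `M ≥ 1`.
* For `d ≥ M √n` and ARBITRARY multiplicities `m_i ≤ M`: `E(d; m) ≤ dim V(d; m) < E(d; m) +
  M (n - √n) / 2`.

So the conditions are independent up to a linear error in the whole range in which the class is nef: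
this is the conjecture of Segre, Harbourne, Gimigliano and Hirschowitz up to a linear error.
The first part (Nagata's conjecture for clusters) is the theorem `MP_d0dfcd_ag.GenericClusters` of the
library.
-/

set_option autoImplicit false

namespace Pool.Agent.Results.MP_d0dfcd_ag.LinearSuperabundance

open Polynomial

universe u

/-- the ideal `(y - q(x), (x - c) ^ r) ^ m` of `k[x][y]`, where `q = ∑ a_j x ^ j`, `j < r`; for
`r = 1` this is the `m`-th power of the ideal of the point `(c, a_0)` -/
noncomputable def cluster {k : Type u} [Field k] (r m : ℕ) (c : k) (a : Fin r → k) :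
    Ideal k[X][X] :=
  (Ideal.span {X - C (∑ j : Fin r, C (a j) * X ^ (j : ℕ)), C ((X - C c) ^ r)}) ^ m

/-- the space `V(d; m)` of the forms `P` of degree `d` with `P(x, y, 1)` in the ideals of
multiplicity `m i` of all the clusters -/
noncomputable def system {k : Type u} [Field k] {s : ℕ} {r : Fin s → ℕ} (c : Fin s → k)
    (a : (i : Fin s) → Fin (r i) → k) (m : Fin s → ℕ) (d : ℕ) :
    Submodule k (MvPolynomial (Fin 3) k) :=
  MvPolynomial.homogeneousSubmodule (Fin 3) k d ⊓
    ⨅ i, (Submodule.restrictScalars k (cluster (r i) (m i) (c i) (a i))).comap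
      (MvPolynomial.aeval ![C X, X, 1] : MvPolynomial (Fin 3) k →ₐ[k] k[X][X]).toLinearMap

/-- the expected dimension, as a real number (which may be negative) -/
noncomputable def expected {s : ℕ} (r m : Fin s → ℕ) (d : ℕ) : ℝ :=
  (d + 1) * (d + 2) / 2 - ∑ i, (r i : ℝ) * (m i * (m i + 1) / 2)

/-- the parameters `c_i, a_i0, ..., a_i(r_i-1)` of all the clusters are algebraically independent
over the prime field `⊥` of `k` -/
def Generic {k : Type u} [Field k] {s : ℕ} {r : Fin s → ℕ} (c : Fin s → k)
    (a : (i : Fin s) → Fin (r i) → k) : Prop :=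
  AlgebraicIndependent (⊥ : Subfield k)
    (fun q : (i : Fin s) × Fin (r i + 1) => (Fin.cons (c q.1) (a q.1) : Fin (r q.1 + 1) → k) q.2)

theorem result (k : Type u) [Field k] {s : ℕ} (r : Fin s → ℕ) (hr : ∀ i, 1 ≤ r i) (n : ℕ)
    (hn : n = ∑ i, r i) (h9 : 9 < n) (c : Fin s → k) (a : (i : Fin s) → Fin (r i) → k)
    (h : Generic c a) (M : ℕ) (hM : 0 < M) (d : ℕ) :
    ((d : ℝ) ≤ M * √n → Module.finrank k (system c a (fun _ => M) d) = 0) ∧
      (M * √n ≤ d → ∀ m : Fin s → ℕ, (∀ i, m i ≤ M) →
        expected r m d ≤ Module.finrank k (system c a m d) ∧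
        Module.finrank k (system c a m d) < expected r m d + M * (n - √n) / 2) := by
  subst hn
  refine ⟨fun hd => ?_, fun hd m hm => ⟨?_, ?_⟩⟩
  · have h1 : system c a (fun _ => M) d = ⊥ := Pool.Agent.H718.QS.sy_eq_bot hr h9 h hM hd
    rw [h1, finrank_bot]
  · have h1 : (d + 2).choose 2 ≤ Module.finrank k (system c a m d) +
        ∑ i, (Pool.Agent.H932R2.EE (r i) (m i)).card := Pool.Agent.H718.QS.sy_ge c a m d
    have h2 : ((d + 2).choose 2 : ℝ) ≤ (Module.finrank k (system c a m d) : ℝ) +
        ∑ i, ((Pool.Agent.H932R2.EE (r i) (m i)).card : ℝ) := by exact_mod_cast h1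
    have hEE : ∀ i j : ℕ, ((Pool.Agent.H932R2.EE i j).card : ℝ) = i * (j * (j + 1) / 2) := by
      intro i j
      have h3 := Pool.Agent.H932R2.card_EE i j
      have h4 : (2 * (Pool.Agent.H932R2.EE i j).card : ℝ) = i * j * (j + 1) := by
        exact_mod_cast h3
      linarith
    have h5 : ((d + 2).choose 2 : ℝ) = (d + 1) * (d + 2) / 2 := by
      have h5 : (d + 2).choose 2 * 2 = (d + 2) * (d + 1) := by
        rw [Nat.choose_two_right, Nat.div_mul_cancel (Nat.even_mul_pred_self _).two_dvd]
        rfl
      have h6 : (((d + 2).choose 2 * 2 : ℕ) : ℝ) = (((d + 2) * (d + 1) : ℕ) : ℝ) := by rw [h5]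
      push_cast at h6
      linarith
    simp only [hEE] at h2
    unfold expected
    rw [h5] at h2
    linarith
  · have h1 := Pool.Agent.H718.QS.sy_lt hr h9 h hM hm hd
    unfold expected
    exact h1

end Pool.Agent.Results.MP_d0dfcd_ag.LinearSuperabundance
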